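import Mathlib

/-!
# The free group of rank two has infinite commutator width
-/

set_option autoImplicit false

namespace Pool.Agent.V7H56.Pal

open FreeGroup

abbrev Let := Bool × Bool

/-- the contribution of two consecutive letters -/
def ff (x y : Let) : ℤ :=
  if x = (false, true) ∧ y = (true, true) then 1
  else if x = (true, false) ∧ y = (false, false) then -1 else 0

theorem ff_abs (x y : Let) : |ff x y| ≤ 1 := by
  revert x y; decide

theorem ff_inv (x y : Let) : ff (y.1, !y.2) (x.1, !x.2) = -ff x y := by
  revert x y; decide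

/-- signed count of the subwords `a b` and `b⁻¹ a⁻¹` -/
def cnt : List Let → ℤ
  | [] => 0
  | [_] => 0
  | x :: y :: l => ff x y + cnt (y :: l)

theorem cnt_append (u v : List Let) : |cnt (u ++ v) - cnt u - cnt v| ≤ 1 := by
  induction u with
  | nil => simp [cnt]
  | cons x u ih =>
    cases u with
    | nil =>
      cases v with
      | nil => simp [cnt]
      | cons y v =>
        simp only [List.cons_append, List.nil_append, cnt]
        have := ff_abs x y
        have e : ff x y + cnt (y :: v) - 0 - cnt (y :: v) = ff x y := by ring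
        rw [e]; exact this
    | cons y u =>
      simp only [List.cons_append, cnt] at ih ⊢
      have e : ff x y + cnt (y :: (u ++ v)) - (ff x y + cnt (y :: u)) - cnt v =
        cnt (y :: (u ++ v)) - cnt (y :: u) - cnt v := by ring
      rw [e]; exact ih

theorem cnt_append_two (u : List Let) (y x : Let) :
    cnt (u ++ [y, x]) = cnt (u ++ [y]) + ff y x := by
  induction u with
  | nil => simp [cnt]
  | cons z u ih =>
    cases u with
    | nil => simp [cnt]
    | cons w u =>
      simp only [List.cons_append, cnt] at ih ⊢
      rw [ih]; ring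

theorem cnt_invRev (u : List Let) : cnt (invRev u) = -cnt u := by
  induction u with
  | nil => simp [cnt]
  | cons x u ih =>
    cases u with
    | nil => simp [invRev, cnt]
    | cons y u =>
      have h1 : invRev (x :: y :: u) = invRev u ++ [(y.1, !y.2), (x.1, !x.2)] := by
        simp [invRev]
      have h2 : invRev (y :: u) = invRev u ++ [(y.1, !y.2)] := by simp [invRev]
      rw [h1, cnt_append_two, ← h2, ih, ff_inv, cnt]
      ring

/-- cancellation in a product of two reduced words -/
theorem cancel (L₁ L₂ : List Let) (h₁ : IsReduced L₁) (h₂ : IsReduced L₂) :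
    ∃ u c v : List Let, L₁ = u ++ c ∧ L₂ = invRev c ++ v ∧ IsReduced (u ++ v) := by
  induction L₁ using List.reverseRecOn generalizing L₂ with
  | nil => exact ⟨[], [], L₂, rfl, by simp, h₂⟩
  | append_singleton L₁ x ih =>
    cases L₂ with
    | nil => exact ⟨L₁ ++ [x], [], [], by simp, by simp, by simpa using h₁⟩
    | cons y L₂ =>
      by_cases hxy : y = (x.1, !x.2)
      · obtain ⟨u, c, v, h3, h4, h5⟩ := ih L₂ (List.isChain_append.1 h₁).1
          (List.IsChain.tail h₂)
        refine ⟨u, c ++ [x], v, by rw [h3, List.append_assoc], ?_, h5⟩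
        rw [h4, hxy]
        simp [invRev]
      · refine ⟨L₁ ++ [x], [], y :: L₂, by simp, by simp, ?_⟩
        unfold FreeGroup.IsReduced at h₁ h₂ ⊢
        rw [List.isChain_append]
        refine ⟨h₁, h₂, ?_⟩
        intro a ha b hb
        simp only [List.getLast?_append, List.getLast?_singleton, Option.some_or,
          Option.mem_def, Option.some.injEq, List.head?_cons] at ha hb
        subst ha hb
        intro h6
        by_contra h7
        apply hxy
        obtain ⟨x1, x2⟩ := x
        obtain ⟨y1, y2⟩ := y
        simp only at h6 h7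
        subst h6
        have h8 : y2 = !x2 := by
          cases x2 <;> cases y2 <;> first | rfl | exact absurd rfl h7
        rw [h8]

theorem toWord_mul_cancel (x y : FreeGroup Bool) :
    ∃ u c v : List Let, x.toWord = u ++ c ∧ y.toWord = invRev c ++ v ∧ (x * y).toWord = u ++ v := by
  obtain ⟨u, c, v, h1, h2, h3⟩ := cancel x.toWord y.toWord isReduced_toWord isReduced_toWord
  refine ⟨u, c, v, h1, h2, ?_⟩
  have h4 : x * y = mk (u ++ v) := by
    have hx : x = mk (u ++ c) := by rw [← h1, mk_toWord]
    have hy : y = mk (invRev c ++ v) := by rw [← h2, mk_toWord]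
    rw [hx, hy, ← mul_mk, ← mul_mk, ← inv_mk, ← mul_mk]
    group
  rw [h4, toWord_mk, h3.reduce_eq]

/-- the counting quasimorphism -/
def qm (x : FreeGroup Bool) : ℤ := cnt x.toWord

theorem qm_mul (x y : FreeGroup Bool) : |qm (x * y) - qm x - qm y| ≤ 3 := by
  obtain ⟨u, c, v, h1, h2, h3⟩ := toWord_mul_cancel x y
  unfold qm
  rw [h1, h2, h3]
  have e1 := abs_le.1 (cnt_append u v)
  have e2 := abs_le.1 (cnt_append u c)
  have e3 := abs_le.1 (cnt_append (invRev c) v)
  rw [cnt_invRev] at e3
  rw [abs_le]
  constructor <;> linarith [e1.1, e1.2, e2.1, e2.2, e3.1, e3.2]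

theorem qm_inv (x : FreeGroup Bool) : qm x⁻¹ = -qm x := by
  unfold qm
  rw [toWord_inv, cnt_invRev]

open scoped commutatorElement in
theorem qm_comm (x y : FreeGroup Bool) : |qm ⁅x, y⁆| ≤ 9 := by
  rw [commutatorElement_def]
  have e1 := abs_le.1 (qm_mul (x * y * x⁻¹) y⁻¹)
  have e2 := abs_le.1 (qm_mul (x * y) x⁻¹)
  have e3 := abs_le.1 (qm_mul x y)
  rw [qm_inv] at e1 e2
  rw [abs_le]
  constructor <;> linarith [e1.1, e1.2, e2.1, e2.2, e3.1, e3.2]

open scoped commutatorElement in
theorem qm_list (l : List (FreeGroup Bool)) (hl : ∀ c ∈ l, c ∈ commutatorSet (FreeGroup Bool)) :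
    |qm l.prod| ≤ 12 * l.length := by
  induction l with
  | nil => simp [qm, cnt]
  | cons c l ih =>
    have h1 := ih (fun d hd => hl d (List.mem_cons_of_mem _ hd))
    obtain ⟨x, y, rfl⟩ := hl c List.mem_cons_self
    rw [List.prod_cons]
    have e1 := abs_le.1 (qm_mul ⁅x, y⁆ l.prod)
    have e2 := abs_le.1 (qm_comm x y)
    have e3 := abs_le.1 h1
    rw [abs_le, List.length_cons]
    push_cast
    constructor <;> linarith [e1.1, e1.2, e2.1, e2.2, e3.1, e3.2]

open scoped commutatorElement in
/-- the reduced word of a power of the commutator of the generators -/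
theorem qm_pow (n : ℕ) : qm (⁅(FreeGroup.of false : FreeGroup Bool), FreeGroup.of true⁆ ^ n) = n := by
  have h1 : (⁅(FreeGroup.of false : FreeGroup Bool), FreeGroup.of true⁆ ^ n) =
      mk (List.replicate n [((false, true) : Let), (true, true), (false, false), (true, false)]).flatten := by
    induction n with
    | zero => rfl
    | succ n ih =>
      rw [pow_succ', ih, List.replicate_succ, List.flatten_cons, ← mul_mk, commutatorElement_def]
      congr 1
  have h2 : ∀ n : ℕ, IsReduced (List.replicate n
      [((false, true) : Let), (true, true), (false, false), (true, false)]).flatten ∧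
      cnt (List.replicate n
      [((false, true) : Let), (true, true), (false, false), (true, false)]).flatten = n := by
    intro n
    induction n with
    | zero => simp [cnt]
    | succ n ih =>
      obtain ⟨h3, h4⟩ := ih
      rw [List.replicate_succ, List.flatten_cons]
      cases n with
      | zero =>
        simp only [List.replicate_zero, List.flatten_nil, List.append_nil]
        refine ⟨?_, by decide⟩
        simp only [isReduced_cons_cons, IsReduced.singleton, and_true]
        decide
      | succ n =>
        rw [List.replicate_succ, List.flatten_cons] at h3 h4 ⊢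
        simp only [List.cons_append, List.nil_append, cnt, isReduced_cons_cons] at h3 h4 ⊢
        refine ⟨⟨by decide, by decide, by decide, by decide, h3⟩, ?_⟩
        rw [h4]
        have e1 : ff (false, true) (true, true) = 1 := by decide
        have e2 : ff (true, true) (false, false) = 0 := by decide
        have e3 : ff (false, false) (true, false) = 0 := by decide
        have e4 : ff (true, false) (false, true) = 0 := by decide
        rw [e1, e2, e3, e4]
        push_cast
        ring
  obtain ⟨h3, h4⟩ := h2 n
  unfold qm
  rw [h1, toWord_mk, h3.reduce_eq, h4]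

open scoped commutatorElement in
/-- **The free group of rank two has infinite commutator width.** -/
theorem free_width : ¬ ∃ n : ℕ, ∀ g ∈ commutator (FreeGroup Bool), ∃ l : List (FreeGroup Bool),
    l.length ≤ n ∧ (∀ c ∈ l, c ∈ commutatorSet (FreeGroup Bool)) ∧ l.prod = g := by
  rintro ⟨n, hn⟩
  obtain ⟨l, h1, h2, h3⟩ := hn
    (⁅(FreeGroup.of false : FreeGroup Bool), FreeGroup.of true⁆ ^ (12 * n + 1))
    (Subgroup.pow_mem _ (Subgroup.commutator_mem_commutator (Subgroup.mem_top _)
      (Subgroup.mem_top _)) _)
  have h4 := qm_list l h2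
  rw [h3, qm_pow] at h4
  have h5 : |((12 * n + 1 : ℕ) : ℤ)| = ((12 * n + 1 : ℕ) : ℤ) := abs_of_nonneg (by positivity)
  rw [h5] at h4
  have h6 : ((l.length : ℕ) : ℤ) ≤ n := by exact_mod_cast h1
  push_cast at h4
  linarith

end Pool.Agent.V7H56.Pal
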