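import Mathlib

/-!
# Every finitely generated group has a finite generating set for which all elements are palindromes
-/

set_option autoImplicit false

namespace Pool.Agent.V7H56.Pal

variable {G : Type*} [Group G]

/-- words over `S` and inverses -/
def IsWord (S : Set G) (w : List G) : Prop := ∀ x ∈ w, x ∈ S ∨ x⁻¹ ∈ S

/-- elements represented by a palindromic word -/
def IsPal (S : Set G) (g : G) : Prop := ∃ w : List G, w.reverse = w ∧ IsWord S w ∧ w.prod = g

theorem IsWord.append {S : Set G} {u v : List G} (hu : IsWord S u) (hv : IsWord S v) :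
    IsWord S (u ++ v) := by
  intro x hx
  rcases List.mem_append.1 hx with h | h
  · exact hu x h
  · exact hv x h

theorem IsWord.reverse {S : Set G} {u : List G} (hu : IsWord S u) : IsWord S u.reverse := by
  intro x hx
  exact hu x (List.mem_reverse.1 hx)

theorem IsWord.inv {S : Set G} {u : List G} (hu : IsWord S u) : IsWord S (u.map (·⁻¹)) := by
  intro x hx
  obtain ⟨y, hy, rfl⟩ := List.mem_map.1 hx
  rw [inv_inv]
  exact (hu y hy).symm

theorem prod_map_inv_reverse (u : List G) : (u.reverse.map (·⁻¹)).prod = u.prod⁻¹ := by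
  rw [List.map_reverse, ← List.prod_inv_reverse]

theorem prod_inv_rev (u : List G) : ((u.map (·⁻¹)).reverse).prod = u.prod⁻¹ := by
  rw [← List.prod_inv_reverse]

theorem prod_map_inv (u : List G) : (u.map (·⁻¹)).prod = (u.reverse.prod)⁻¹ := by
  have := prod_inv_rev u.reverse
  rw [List.map_reverse, List.reverse_reverse] at this
  exact this

/-- the subgroup of the values of the reversals of the words of value `1` -/
def R (S : Set G) : Subgroup G where
  carrier := {r | ∃ l : List G, IsWord S l ∧ l.prod = 1 ∧ l.reverse.prod = r}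
  one_mem' := ⟨[], by simp [IsWord], by simp, by simp⟩
  mul_mem' := by
    rintro a b ⟨l, hl, h1, h2⟩ ⟨m, hm, h3, h4⟩
    refine ⟨m ++ l, hm.append hl, by rw [List.prod_append, h1, h3, one_mul], ?_⟩
    rw [List.reverse_append, List.prod_append, h2, h4]
  inv_mem' := by
    rintro a ⟨l, hl, h1, h2⟩
    refine ⟨l.reverse.map (·⁻¹), hl.reverse.inv, ?_, ?_⟩
    · rw [prod_map_inv_reverse, h1, inv_one]
    · rw [← List.map_reverse, List.reverse_reverse, prod_map_inv, h2]

theorem exists_word {S : Set G} (hS : Subgroup.closure S = ⊤) (g : G) :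
    ∃ u : List G, IsWord S u ∧ u.prod = g := by
  have hg : g ∈ Subgroup.closure S := by rw [hS]; trivial
  induction hg using Subgroup.closure_induction with
  | mem x hx => exact ⟨[x], by intro y hy; rw [List.mem_singleton.1 hy]; exact Or.inl hx, by simp⟩
  | one => exact ⟨[], by simp [IsWord], by simp⟩
  | mul x y _ _ h1 h2 =>
    obtain ⟨u, hu, rfl⟩ := h1
    obtain ⟨v, hv, rfl⟩ := h2
    exact ⟨u ++ v, hu.append hv, by rw [List.prod_append]⟩
  | inv x _ h1 =>
    obtain ⟨u, hu, rfl⟩ := h1
    exact ⟨u.reverse.map (·⁻¹), hu.reverse.inv, prod_map_inv_reverse u⟩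

theorem R_normal {S : Set G} (hS : Subgroup.closure S = ⊤) : (R S).Normal := by
  constructor
  rintro r ⟨l, hl, h1, h2⟩ g
  obtain ⟨m, hm, rfl⟩ := exists_word hS g
  refine ⟨m.map (·⁻¹) ++ l ++ m.reverse, (hm.inv.append hl).append hm.reverse, ?_, ?_⟩
  · rw [List.prod_append, List.prod_append, h1, mul_one, prod_map_inv, inv_mul_cancel]
  · rw [List.reverse_append, List.reverse_append, List.reverse_reverse, List.prod_append,
      List.prod_append, h2, prod_inv_rev, mul_assoc]

/-- if `g` is in the same coset of `R` as the value of a palindrome `u a u^rev` then `g` is the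
value of a palindrome -/
theorem isPal_of {S : Set G} (hS : Subgroup.closure S = ⊤) {u c : List G} (hu : IsWord S u)
    (hc : IsWord S c) (hcr : c.reverse = c) {r : G} (hr : r ∈ R S) :
    IsPal S (u.prod * c.prod * u.reverse.prod * r) := by
  have hn := R_normal hS
  have h1 : u.reverse.prod * r * u.reverse.prod⁻¹ ∈ R S := hn.conj_mem r hr _
  obtain ⟨k, hk, hk1, hk2⟩ := h1
  refine ⟨u ++ k ++ c ++ k.reverse ++ u.reverse, ?_, ?_, ?_⟩
  · simp [List.reverse_append, hcr]
  · exact (((hu.append hk).append hc).append hk.reverse).append hu.reverse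
  · rw [List.prod_append, List.prod_append, List.prod_append, List.prod_append, hk1, hk2]
    group

theorem commute_mk {S : Set G} {x y : G} (hx : x ∈ S) (hy : y ∈ S) (hxy : x * y ∈ S) :
    x⁻¹ * y⁻¹ * (x * y) ∈ R S := by
  refine ⟨[x * y, y⁻¹, x⁻¹], ?_, by simp, by simp [mul_assoc]⟩
  intro z hz
  simp only [List.mem_cons, List.not_mem_nil, or_false] at hz
  rcases hz with rfl | rfl | rfl
  · exact Or.inl hxy
  · right; rwa [inv_inv]
  · right; rwa [inv_inv]

open scoped commutatorElement in
/-- the quotient by `R` is abelian if `S` contains the products of the pairs of a generating set -/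
theorem commutator_le {S T : Set G} (hS : Subgroup.closure S = ⊤) (hT : Subgroup.closure T = ⊤)
    (h : ∀ x ∈ T, ∀ y ∈ T, x⁻¹ * y⁻¹ * (x * y) ∈ R S) : commutator G ≤ R S := by
  have hn := R_normal hS
  -- the quotient is commutative
  have h1 : ∀ x ∈ T, ∀ y ∈ T, (QuotientGroup.mk' (R S) x) * (QuotientGroup.mk' (R S) y) =
      (QuotientGroup.mk' (R S) y) * (QuotientGroup.mk' (R S) x) := by
    intro x hx y hy
    have h2 := h x hx y hy
    have h3 : QuotientGroup.mk' (R S) (x⁻¹ * y⁻¹ * (x * y)) = 1 := by
      rw [QuotientGroup.mk'_apply, QuotientGroup.eq_one_iff]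
      exact h2
    have h4 : QuotientGroup.mk' (R S) (x * y) = QuotientGroup.mk' (R S) (y * x) := by
      have h5 : x * y = (y * x) * (x⁻¹ * y⁻¹ * (x * y)) := by group
      rw [h5, map_mul, h3, mul_one]
    rw [← map_mul, ← map_mul, h4]
  have h2 : ∀ a b : G ⧸ R S, a * b = b * a := by
    have h3 : Subgroup.closure ((QuotientGroup.mk' (R S)) '' T) = ⊤ := by
      rw [← MonoidHom.map_closure, hT, ← MonoidHom.range_eq_map]
      exact MonoidHom.range_eq_top.2 (QuotientGroup.mk'_surjective _)
    have h4 : ∀ a ∈ Subgroup.closure ((QuotientGroup.mk' (R S)) '' T), ∀ b ∈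
        Subgroup.closure ((QuotientGroup.mk' (R S)) '' T), a * b = b * a := by
      intro a ha b hb
      have h5 : IsMulCommutative (Subgroup.closure ((QuotientGroup.mk' (R S)) '' T)) := by
        apply Subgroup.isMulCommutative_closure
        rintro _ ⟨x, hx, rfl⟩ _ ⟨y, hy, rfl⟩
        exact h1 x hx y hy
      have := h5.is_comm.comm ⟨a, ha⟩ ⟨b, hb⟩
      exact congrArg Subtype.val this
    intro a b
    exact h4 a (by rw [h3]; trivial) b (by rw [h3]; trivial)
  rw [commutator_def, Subgroup.commutator_le]
  intro a _ b _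
  rw [← QuotientGroup.eq_one_iff, ← QuotientGroup.mk'_apply, map_commutatorElement,
    commutatorElement_eq_one_iff_mul_comm]
  exact h2 _ _

end Pool.Agent.V7H56.Pal
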