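import Pool.Agent.V7H56.Pal.Univ

set_option autoImplicit false

namespace Pool.Agent.V7H56.Pal

variable {G : Type*} [Group G]

theorem IsWord.mono {S T : Set G} (h : S ⊆ T) {u : List G} (hu : IsWord S u) : IsWord T u := by
  intro x hx
  rcases hu x hx with h1 | h1
  · exact Or.inl (h h1)
  · exact Or.inr (h h1)

open Classical in
theorem word_mod_squares {A : Type*} [CommGroup A] (T : Finset G) (q : G →* A) (u : List G)
    (hu : IsWord (T : Set G) u) :
    ∃ (v : G) (I : Finset G), I ⊆ T ∧ q u.prod = q v ^ 2 * ∏ y ∈ I, q y := by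
  induction u with
  | nil => exact ⟨1, ∅, by simp, by simp⟩
  | cons x u ih =>
    obtain ⟨v, I, hI, h⟩ := ih (fun y hy => hu y (List.mem_cons_of_mem _ hy))
    -- multiplication by a generator
    have key : ∀ z ∈ T, ∀ a : A, (∃ (v : G) (I : Finset G), I ⊆ T ∧ a = q v ^ 2 * ∏ y ∈ I, q y) →
        ∃ (v : G) (I : Finset G), I ⊆ T ∧ q z * a = q v ^ 2 * ∏ y ∈ I, q y := by
      rintro z hz a ⟨v, I, hI, rfl⟩
      by_cases hzI : z ∈ I
      · refine ⟨v * z, I.erase z, (Finset.erase_subset _ _).trans hI, ?_⟩
        rw [← Finset.mul_prod_erase I (fun y => q y) hzI, map_mul, mul_pow, pow_two (q z)]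
        ac_rfl
      · refine ⟨v, insert z I, Finset.insert_subset hz hI, ?_⟩
        rw [Finset.prod_insert hzI]
        simp only [mul_left_comm]
    rw [List.prod_cons, map_mul]
    rcases hu x List.mem_cons_self with h1 | h1
    · exact key x h1 _ ⟨v, I, hI, h⟩
    · obtain ⟨v', I', hI', h'⟩ := key x⁻¹ h1 (q u.prod) ⟨v, I, hI, h⟩
      refine ⟨x * v', I', hI', ?_⟩
      rw [map_mul, mul_pow, mul_assoc, ← h', map_inv]
      group

/-- **Universal theorem.** Every finite generating set `T` of a group is contained in a finite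
generating set `S` such that every element of the group is the value of a palindrome over `S`. -/
theorem universal (T : Finset G) (hT : Subgroup.closure (T : Set G) = ⊤) :
    ∃ S : Finset G, T ⊆ S ∧ Subgroup.closure (S : Set G) = ⊤ ∧ ∀ g : G, IsPal (S : Set G) g := by
  classical
  let S : Finset G := T ∪ (T ×ˢ T).image (fun p => p.1 * p.2) ∪
    T.powerset.image (fun I => I.toList.prod)
  have hTS : T ⊆ S := fun x hx => Finset.mem_union_left _ (Finset.mem_union_left _ hx)
  have hS : Subgroup.closure (S : Set G) = ⊤ := by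
    rw [eq_top_iff, ← hT]
    exact Subgroup.closure_mono (fun x hx => hTS hx)
  refine ⟨S, hTS, hS, ?_⟩
  have hn : (R (S : Set G)).Normal := R_normal hS
  have hcomm : commutator G ≤ R (S : Set G) := by
    refine commutator_le hS hT ?_
    intro x hx y hy
    refine commute_mk (S := (S : Set G)) (hTS hx) (hTS hy) ?_
    refine Finset.mem_coe.2 (Finset.mem_union_left _ (Finset.mem_union_right _ ?_))
    exact Finset.mem_image.2 ⟨(x, y), Finset.mem_product.2 ⟨hx, hy⟩, rfl⟩
  let q' : G →* G ⧸ R (S : Set G) := QuotientGroup.mk' _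
  have hc : ∀ a b : G ⧸ R (S : Set G), a * b = b * a := by
    intro a b
    obtain ⟨x, rfl⟩ := QuotientGroup.mk'_surjective _ a
    obtain ⟨y, rfl⟩ := QuotientGroup.mk'_surjective _ b
    rw [← commutatorElement_eq_one_iff_mul_comm, ← map_commutatorElement,
      QuotientGroup.mk'_apply, QuotientGroup.eq_one_iff]
    exact hcomm (Subgroup.commutator_mem_commutator (Subgroup.mem_top x) (Subgroup.mem_top y))
  let cg : CommGroup (G ⧸ R (S : Set G)) := { mul_comm := hc }
  let q : G →* G ⧸ R (S : Set G) := q'
  intro g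
  obtain ⟨w, hw, hwg⟩ := exists_word hT g
  obtain ⟨v, I, hI, h⟩ := word_mod_squares T q w hw
  rw [hwg] at h
  obtain ⟨u, hu, huv⟩ := exists_word hT v
  have hcI : IsWord (S : Set G) [I.toList.prod] := by
    intro x hx
    rw [List.mem_singleton.1 hx]
    left
    exact Finset.mem_coe.2 (Finset.mem_union_right _ (Finset.mem_image.2
      ⟨I, Finset.mem_powerset.2 hI, rfl⟩))
  have huS : IsWord (S : Set G) u := hu.mono (fun x hx => hTS hx)
  have hrev : q u.reverse.prod = q v := by
    rw [← huv, map_list_prod, map_list_prod, List.map_reverse]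
    exact (List.reverse_perm _).prod_eq
  have hq : q (u.prod * [I.toList.prod].prod * u.reverse.prod) = q g := by
    rw [map_mul, map_mul, hrev, huv, h, List.prod_singleton, map_list_prod, Finset.prod_map_toList,
      pow_two]
    simp only [mul_comm, mul_left_comm]
  have hr : (u.prod * [I.toList.prod].prod * u.reverse.prod)⁻¹ * g ∈ R (S : Set G) := by
    rw [← QuotientGroup.eq]
    exact hq
  have := isPal_of hS huS hcI (by simp) hr
  rwa [mul_inv_cancel_left] at this

end Pool.Agent.V7H56.Pal
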